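import Pool.Agent.H17.Cone.Stmts

/-!
# The numbers of the frame may be assumed to be ordered
-/

set_option autoImplicit false

namespace Pool.Agent.H17.Cone

open MeasureTheory Filter Topology Module

namespace ORD

theorem frame_perm {K : Set E2} {a : Fin 3 → E2} {x : Fin 3 → (E2 →ᵃ[ℝ] ℝ)} {b : Fin 3 → ℝ}
    {e : Fin 3 → E2} (h : Frame K a x b e) (σ : Equiv.Perm (Fin 3)) :
    Frame K (fun i => a (σ i)) (fun i => x (σ i)) (fun i => b (σ i)) (fun i => e (σ i)) where
  mem i := h.mem _
  delta i j := by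
    rw [h.delta]
    simp [σ.injective.eq_iff]
  sum z := by
    have h1 := Equiv.sum_comp σ (fun i => x i z)
    rw [Fin.sum_univ_three, Fin.sum_univ_three] at h1
    rw [h1]
    exact h.sum z
  repr z := by
    have h1 := Equiv.sum_comp σ (fun i => x i z • a i)
    rw [Fin.sum_univ_three, Fin.sum_univ_three] at h1
    rw [h1]
    exact h.repr z
  nonneg i := h.nonneg _
  low i := h.low _
  high i := h.high _
  emem i := h.emem _
  eval i := h.eval _

theorem maxArea_perm {K : Set E2} {x : Fin 3 → (E2 →ᵃ[ℝ] ℝ)} (h : MaxArea K x)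
    (σ : Equiv.Perm (Fin 3)) : MaxArea K (fun i => x (σ i)) := by
  intro z hz
  have h1 := Matrix.abs_det_submatrix_equiv_equiv (Equiv.refl (Fin 3)) σ
    (Matrix.of fun i j => x j (z i))
  have h2 : (Matrix.of fun i j => x j (z i)).submatrix (Equiv.refl (Fin 3)) σ =
      Matrix.of fun i j => x (σ j) (z i) := by
    ext i j
    simp
  rw [h2] at h1
  rw [h1]
  exact h z hz

end ORD

theorem ord_thm (hFRM : FRMStmt) : ORDStmt := by
  intro K hK
  obtain ⟨a, x, b, e, hF, hM⟩ := hFRM K hK
  have hs : Monotone ((fun i => -b i) ∘ Tuple.sort (fun i => -b i)) :=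
    Tuple.monotone_sort (fun i => -b i)
  set σ : Equiv.Perm (Fin 3) := Tuple.sort (fun i => -b i) with hσ
  refine ⟨fun i => a (σ i), fun i => x (σ i), fun i => b (σ i), fun i => e (σ i),
    ORD.frame_perm hF σ, ORD.maxArea_perm hM σ, ?_, ?_⟩
  · have := hs (show (1 : Fin 3) ≤ 2 by decide)
    simp only [Function.comp] at this
    linarith
  · have := hs (show (0 : Fin 3) ≤ 1 by decide)
    simp only [Function.comp] at this
    linarith

end Pool.Agent.H17.Cone
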