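import Pool.Agent.H17.Cone.Stmts

/-!
# Separation of the cone and its translates
-/

set_option autoImplicit false

namespace Pool.Agent.H17.Cone

open MeasureTheory Filter Topology Module

namespace SPB

theorem gen {K : Set E2} {f : E2 →ᵃ[ℝ] E3} {v u : E3} (l : E3 →ₗ[ℝ] ℝ) (M : ℝ) (hM : 0 ≤ M)
    (hK : ∀ z ∈ K, -M ≤ l (f z - v) ∧ l (f z - v) ≤ 0) (hu : M ≤ l u) (d : E3) (hd : 0 < l d) :
    Disjoint (interior (cone f v K)) (interior (tr u (cone f v K))) := by
  have hsub : cone f v K ⊆ {x | l x ≤ l v} ∩ {x | l v - M ≤ l x} := by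
    unfold cone
    refine convexHull_min ?_ ((convex_halfSpace_le l.isLinear _).inter
      (convex_halfSpace_ge l.isLinear _))
    rintro x (⟨z, hz, rfl⟩ | hx)
    · have h1 := hK z hz
      rw [map_sub] at h1
      exact ⟨show l (f z) ≤ l v by linarith, show l v - M ≤ l (f z) by linarith⟩
    · rw [Set.mem_singleton_iff] at hx
      subst hx
      exact ⟨show l x ≤ l x from le_rfl, show l x - M ≤ l x by linarith⟩
  rw [Set.disjoint_left]
  intro x hx hx'
  have h2 : l v ≤ l x := by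
    obtain ⟨c, hc, rfl⟩ := interior_subset hx'
    have h3 : l v - M ≤ l c := (hsub hc).2
    rw [map_add]
    linarith
  have h4 : ∀ᶠ s in 𝓝 (0 : ℝ), x + s • d ∈ cone f v K := by
    have hcont : ContinuousAt (fun s : ℝ => x + s • d) 0 := by fun_prop
    refine hcont.eventually_mem ?_
    rw [zero_smul, add_zero]
    exact mem_interior_iff_mem_nhds.mp hx
  have h5 : ∀ᶠ s in 𝓝[>] (0 : ℝ), x + s • d ∈ cone f v K := h4.filter_mono nhdsWithin_le_nhds
  obtain ⟨s, hs, hs0⟩ := (h5.and self_mem_nhdsWithin).exists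
  have h6 : l (x + s • d) ≤ l v := (hsub hs).1
  rw [map_add, map_smul, smul_eq_mul] at h6
  have h7 : 0 < s * l d := mul_pos hs0 hd
  linarith

/-- The functional with coefficients `g` in the basis `w`. -/
noncomputable def fn (w : Basis (Fin 3) ℝ E3) (g : Fin 3 → ℝ) : E3 →ₗ[ℝ] ℝ :=
  ∑ i, g i • w.coord i

theorem fn_apply (w : Basis (Fin 3) ℝ E3) (g : Fin 3 → ℝ) (y : E3) :
    fn w g y = g 0 * w.repr y 0 + g 1 * w.repr y 1 + g 2 * w.repr y 2 := by
  unfold fn
  simp [Fin.sum_univ_three, LinearMap.add_apply]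

theorem repr_eq {K : Set E2} {a : Fin 3 → E2} {x : Fin 3 → (E2 →ᵃ[ℝ] ℝ)} {b : Fin 3 → ℝ}
    {e : Fin 3 → E2} (h : Frame K a x b e) (f : E2 →ᵃ[ℝ] E3) (v : E3) (w : Basis (Fin 3) ℝ E3)
    (hw : ∀ i, w i = f (a i) - v) (z : E2) (j : Fin 3) : w.repr (f z - v) j = x j z := by
  have hdec : ∀ y, f y = f.linear y + f 0 := fun y => by
    have := congrFun (AffineMap.decomp f) y
    simpa using this
  have h1 : f z = x 0 z • f (a 0) + x 1 z • f (a 1) + x 2 z • f (a 2) := by
    have e1 : f z = f.linear (x 0 z • a 0 + x 1 z • a 1 + x 2 z • a 2) + f 0 := by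
      rw [h.repr z]; exact hdec z
    have e2 : f 0 = (x 0 z + x 1 z + x 2 z) • f 0 := by rw [h.sum z, one_smul]
    rw [e1, e2, hdec (a 0), hdec (a 1), hdec (a 2)]
    simp only [map_add, map_smul]
    module
  have h2 : f z - v = ∑ i, x i z • w i := by
    have e3 : v = (x 0 z + x 1 z + x 2 z) • v := by rw [h.sum z, one_smul]
    rw [Fin.sum_univ_three, hw 0, hw 1, hw 2, h1]
    nth_rewrite 1 [e3]
    module
  rw [h2]
  simp [Basis.repr_self, Finsupp.single_apply]

end SPB

theorem spb_thm : SPBStmt := by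
  intro K a x b e hF f v w hw u hS
  have hr := SPB.repr_eq hF f v w hw
  rcases hS with h | ⟨j, h⟩ | ⟨j, h⟩
  · refine SPB.gen (SPB.fn w fun _ => -1) 1 zero_le_one ?_ ?_ (-(w 0)) ?_
    · intro z hz
      have h1 := hF.sum z
      rw [SPB.fn_apply, hr z 0, hr z 1, hr z 2]
      constructor <;> linarith
    · rw [SPB.fn_apply]
      linarith
    · rw [map_neg, SPB.fn_apply]
      simp
  · refine SPB.gen (SPB.fn w fun i => (if i = j then 1 else 0) - 1) (1 + b j)
      (by linarith [hF.nonneg j]) ?_ ?_ (-(w (j + 1))) ?_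
    · intro z hz
      have h1 := hF.sum z
      have h2 := hF.low j z hz
      have h3 := hF.high j z hz
      rw [SPB.fn_apply, hr z 0, hr z 1, hr z 2]
      fin_cases j <;> simp at h2 h3 ⊢ <;> constructor <;> linarith
    · rw [SPB.fn_apply]
      fin_cases j <;> simp at h ⊢ <;> linarith
    · rw [map_neg, SPB.fn_apply]
      fin_cases j <;> simp
  · refine SPB.gen (SPB.fn w fun i => -(if i = j then 1 else 0) - b j) (1 + b j)
      (by linarith [hF.nonneg j]) ?_ ?_ (-(w j)) ?_
    · intro z hz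
      have h1 := hF.sum z
      have h2 := hF.low j z hz
      have h3 := hF.high j z hz
      have h4 : b j * (x 0 z + x 1 z + x 2 z) = b j := by rw [h1, mul_one]
      rw [SPB.fn_apply, hr z 0, hr z 1, hr z 2]
      fin_cases j <;> simp at h2 h3 h4 ⊢ <;> constructor <;> nlinarith
    · rw [SPB.fn_apply]
      fin_cases j <;> simp at h ⊢ <;> nlinarith
    · rw [map_neg, SPB.fn_apply]
      have := hF.nonneg j
      fin_cases j <;> simp at this ⊢ <;> linarith

end Pool.Agent.H17.Cone
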